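import Pool.Agent.H46.Sc.Opt
import Pool.Agent.H46.Sc.Alg3

/-! Max-Scatter-TSP is polynomial-time solvable for every fixed polyhedral norm. -/

set_option autoImplicit false

namespace Pool.Agent.Results.MP_5296b6_lc.PolyTime

open Pool.Agent.H46
open Pool.Agent.H46.CX
open Pool.Agent.H46.MS

theorem result (s f : ℕ) (hs : 0 < s) :
    (∀ (B : Set (Fin s → ℝ)) (g : Fin f → Fin s → ℝ), IsPolyBall B g → (∀ i j, IsAlgebraic ℚ (g i j)) →
      PolySolvable B) ∧
    (∀ (B : Set (Fin s → ℝ)) (g : Fin f → Fin s → ℝ), IsPolyBall B g → Comparable g → PolySolvable B) ∧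
    (∃ F : List (List (List Bool)) → Option (List ℕ), PT F ∧
      ∀ (B : Set (Fin s → ℝ)) (g : Fin f → Fin s → ℝ), IsPolyBall B g →
      ∀ (P : List (Fin s → ℝ)) (L : ℝ), P ≠ [] → 0 < L →
        (∀ t, F (table g P L) = some t →
          t.Perm (List.range P.length) ∧ Cyc (fun k m => L ≤ bdist B (P.getD k 0) (P.getD m 0)) t) ∧
        (F (table g P L) = none →
          ¬ ∃ t : List ℕ, t.Perm (List.range P.length) ∧
            Cyc (fun k m => L ≤ bdist B (P.getD k 0) (P.getD m 0)) t)) := by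
  have hc : ∀ (B : Set (Fin s → ℝ)) (g : Fin f → Fin s → ℝ), IsPolyBall B g → Comparable g → PolySolvable B :=
    fun B g h hc => ⟨Sc.inP_maxScatter hs h hc, Sc.opt g, Sc.pt_opt hc, fun P h3 hP => Sc.opt_spec hs h hP (by omega)⟩
  exact ⟨fun B g h hq => hc B g h (Sc.comparable_of_alg hq), hc, Sc.runT f, Sc.pt_runT f, fun B g h P L hP hL =>
    Sc.runT_spec h (Sc.IPB.fpos hs h) P hP hL⟩

end Pool.Agent.Results.MP_5296b6_lc.PolyTime
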